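import Pool.Agent.MP_bae0ed_lc.H52.Main
import Pool.Agent.MP_bae0ed_lc.H52.PT2

set_option autoImplicit false

namespace Pool.Agent.Results.MP_bae0ed_lc.InP

/-- The multigraph on the vertices `0, …, n` with `μ a b` parallel edges between `a` and `b` is
dual-critical: its vertices can be ordered `v 0, …, v n` so that each `v i` with `i ≠ 0` is joined
to the earlier vertices by an odd number of edges. -/
def DualCritical {n : ℕ} (μ : Fin (n + 1) → Fin (n + 1) → ℕ) : Prop :=
  ∃ v : Equiv.Perm (Fin (n + 1)), ∀ i, i ≠ 0 → Odd (∑ j with j < i, μ (v i) (v j))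

/-- Dual-criticality of a loopless multigraph, given by its matrix of edge multiplicities, is
decided by a deterministic polynomial time machine. -/
theorem result : ∃ f : List (List ℕ) → Bool, N68a2faeb.IsPolyTime f ∧
    ∀ (n : ℕ) (μ : Fin (n + 1) → Fin (n + 1) → ℕ), (∀ a b, μ a b = μ b a) → (∀ a, μ a a = 0) →
      (f (List.ofFn fun a => List.ofFn (μ a)) = true ↔ DualCritical μ) :=
  ⟨Pool.Agent.MP_bae0ed_lc.H52.answer,
    (Pool.Agent.MP_bae0ed_lc.H52.pt_answer Pool.Agent.Shared.H56.PT.id').isPolyTime,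
    Pool.Agent.MP_bae0ed_lc.H52.answer_iff⟩

end Pool.Agent.Results.MP_bae0ed_lc.InP
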